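import Pool.Agent.helper5.SYM.SpecB

/-! # sy:EQA: fixed points of an additive 2-group on transition systems -/

set_option autoImplicit false

namespace Pool.Agent.SYM
open Finset CT Polynomial

/-- The homomorphism of the multiplicative version. -/
def EQA_hom {V A : Type} [AddCommGroup A] {G : SimpleGraph V} (θ : A → (G ≃g G))
    (h : ∀ a b v, θ (a + b) v = θ a (θ b v)) : Multiplicative A →* (G ≃g G) where
  toFun a := θ a.toAdd
  map_one' := by
    apply RelIso.ext
    intro v
    have := h 0 0 v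
    rw [add_zero] at this
    exact ((θ 0).injective this).symm
  map_mul' a b := by
    apply RelIso.ext
    intro v
    exact h a.toAdd b.toAdd v

theorem EQA_main (hEQP : EQP_stmt) {V A : Type} [Fintype V] [AddCommGroup A] [Fintype A]
    (G : SimpleGraph V) (θ : A → (G ≃g G)) (hA : ∃ k, Nat.card A = 2 ^ k)
    (h : ∀ a b v, θ (a + b) v = θ a (θ b v)) (B : (G.Dart → G.Dart) → Prop)
    (hB : ∀ a τ, B τ → B (cj (θ a) τ)) (ho : Odd (Nat.card {τ : G.Dart → G.Dart // IsTS τ ∧ B τ})) :
    Odd (Nat.card {τ : G.Dart → G.Dart // IsTS τ ∧ (∀ a, Inv (θ a) τ) ∧ B τ}) := by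
  obtain ⟨k, hk⟩ := hA
  have hp : IsPGroup 2 (Multiplicative A) := IsPGroup.of_card (n := k) hk
  have h1 := hEQP V (Multiplicative A) G (EQA_hom θ h) B hp (fun p τ hτ => hB p.toAdd τ hτ)
  have h2 : Nat.card {τ : G.Dart → G.Dart // IsTS τ ∧ B τ ∧ ∀ p, Inv (EQA_hom θ h p) τ} =
      Nat.card {τ : G.Dart → G.Dart // IsTS τ ∧ (∀ a, Inv (θ a) τ) ∧ B τ} := by
    apply Nat.card_congr
    apply Equiv.subtypeEquivRight
    intro τ
    constructor
    · rintro ⟨a, b, c⟩
      exact ⟨a, fun x => c (Multiplicative.ofAdd x), b⟩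
    · rintro ⟨a, b, c⟩
      exact ⟨a, c, fun x => b x.toAdd⟩
  rw [h2, (ZMod.natCast_eq_one_iff_odd).2 ho] at h1
  exact (ZMod.natCast_eq_one_iff_odd).1 h1.symm

theorem EQA (hCJI : CJI_stmt) (hEQP : EQP_stmt) : EQA_stmt := by
  intro V A _ _ _ G θ hA h
  constructor
  · intro ho
    apply EQA_main hEQP G θ hA h (fun τ => gav τ (fun _ => False) = 3) ?_ ho
    intro a τ hτ
    show gav (cj (θ a) τ) (fun _ => False) = 3
    rw [(hCJI V G (θ a) τ).1]
    exact hτ
  · intro w hw ho
    apply EQA_main hEQP G θ hA h (fun τ => gav τ (fun d => d.fst = w) = 1) ?_ ho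
    intro a τ hτ
    show gav (cj (θ a) τ) (fun d => d.fst = w) = 1
    rw [(hCJI V G (θ a) τ).1]
    have : (fun d : G.Dart => (sd (θ a) d).fst = w) = (fun d : G.Dart => d.fst = w) := by
      funext d
      apply propext
      show θ a d.fst = w ↔ d.fst = w
      constructor
      · intro h1
        exact (θ a).injective (h1.trans (hw a).symm)
      · intro h1
        rw [h1, hw a]
    rw [this]
    exact hτ

end Pool.Agent.SYM
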